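import Pool.Agent.L7h31.CE.Stm

set_option autoImplicit false

/-!
# Project CE (MP_6d95fe_co): parts EXT, EXT2, MAP, PER
-/

namespace Pool.Agent.L7h76.CE

open Pool.Agent.L7h31.CE

theorem dsq (hD : S_DST) {r : ℕ} (D : Dat r) (j : ℤ) (μ : Fin r → ℤ) (z : E r) :
    dist z (cen D j μ) ^ 2 = (∑ a, (hor z a - (D.w j a + μ a)) ^ 2) +
      (ver z - ((r : ℝ) + 1) * j) ^ 2 := by
  obtain ⟨h1, -, h3, -⟩ := hD r
  rw [h3]
  unfold cen
  rw [(h1 _ _).2]
  simp only [(h1 _ _).1]

theorem hor_cen (hD : S_DST) {r : ℕ} (D : Dat r) (j : ℤ) (μ : Fin r → ℤ) (a : Fin r) :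
    hor (cen D j μ) a = D.w j a + μ a := ((hD r).1 _ _).1 a

theorem ver_cen (hD : S_DST) {r : ℕ} (D : Dat r) (j : ℤ) (μ : Fin r → ℤ) :
    ver (cen D j μ) = ((r : ℝ) + 1) * j := ((hD r).1 _ _).2

theorem sq_mono {X : Type} [MetricSpace X] {x y z w : X} (h : dist x y ≤ dist z w) :
    dist x y ^ 2 ≤ dist z w ^ 2 := pow_le_pow_left₀ dist_nonneg h 2

theorem sq_mono' {X : Type} [MetricSpace X] {x y z w : X} (h : dist x y ^ 2 ≤ dist z w ^ 2) :
    dist x y ≤ dist z w := (pow_le_pow_iff_left₀ dist_nonneg dist_nonneg two_ne_zero).1 h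

theorem s_EXT (hD : S_DST) : S_EXT := by
  intro r D i ν z hz
  constructor
  · intro a
    have key : ∀ s : ℤ, (hor z a - (D.w i a + ν a)) ^ 2 ≤
        (hor z a - (D.w i a + (ν a + s))) ^ 2 := by
      intro s
      have h1 := sq_mono (hz 0 (by simp) (Function.update ν a (ν a + s)))
      rw [add_zero, dsq hD, dsq hD] at h1
      have h2 := Finset.add_sum_erase Finset.univ
        (fun b => (hor z b - (D.w i b + ν b)) ^ 2) (Finset.mem_univ a)
      have h3 := Finset.add_sum_erase Finset.univ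
        (fun b => (hor z b - (D.w i b + (Function.update ν a (ν a + s) b : ℤ))) ^ 2)
        (Finset.mem_univ a)
      have h4 : ∑ b ∈ Finset.univ.erase a,
          (hor z b - (D.w i b + (Function.update ν a (ν a + s) b : ℤ))) ^ 2 =
          ∑ b ∈ Finset.univ.erase a, (hor z b - (D.w i b + ν b)) ^ 2 := by
        refine Finset.sum_congr rfl fun b hb => ?_
        rw [Function.update_of_ne (Finset.ne_of_mem_erase hb)]
      rw [h4, Function.update_self] at h3
      push_cast at h3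
      linarith
    have h1 := key 1
    have h2 := key (-1)
    push_cast at h1 h2
    rw [hor_cen hD, abs_le]
    constructor <;> nlinarith
  · have key : ∀ t : ℤ, |t| ≤ 1 → (ver z - ((r : ℝ) + 1) * i) ^ 2 ≤
        r / 4 + (ver z - ((r : ℝ) + 1) * (i + t)) ^ 2 := by
      intro t ht
      have h1 := sq_mono (hz t ht (fun a => round (hor z a - D.w (i + t) a)))
      rw [dsq hD, dsq hD] at h1
      have h2 : 0 ≤ ∑ a, (hor z a - (D.w i a + ν a)) ^ 2 :=
        Finset.sum_nonneg fun _ _ => sq_nonneg _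
      have h3 : ∑ a, (hor z a - (D.w (i + t) a +
          ((round (hor z a - D.w (i + t) a) : ℤ) : ℝ))) ^ 2 ≤ ∑ _a : Fin r, (1 / 4 : ℝ) := by
        refine Finset.sum_le_sum fun a _ => ?_
        have h4 := abs_sub_round (hor z a - D.w (i + t) a)
        have h5 : hor z a - (D.w (i + t) a + ((round (hor z a - D.w (i + t) a) : ℤ) : ℝ)) =
          hor z a - D.w (i + t) a - ((round (hor z a - D.w (i + t) a) : ℤ) : ℝ) := by ring
        rw [h5]
        have h6 := abs_le.1 h4
        nlinarith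
      rw [Finset.sum_const, Finset.card_univ, Fintype.card_fin, nsmul_eq_mul] at h3
      push_cast at h1
      linarith
    have h1 := key 1 (by simp)
    have h2 := key (-1) (by simp)
    push_cast at h1 h2
    have hr : (0 : ℝ) ≤ r := Nat.cast_nonneg r
    generalize ver z = V at *
    generalize (i : ℝ) = I at *
    have h1' : 2 * ((r : ℝ) + 1) * (V - (r + 1) * I) ≤ r / 4 + (r + 1) ^ 2 := by nlinarith
    have h2' : -(2 * ((r : ℝ) + 1) * (V - (r + 1) * I)) ≤ r / 4 + (r + 1) ^ 2 := by nlinarith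
    rw [abs_le]
    constructor
    · by_contra hcon
      push Not at hcon
      nlinarith
    · by_contra hcon
      push Not at hcon
      nlinarith

theorem int_half {k : ℤ} {s : ℝ} (hs : s = 1 ∨ s = -1) : 1 / 4 ≤ ((k : ℝ) + s / 2) ^ 2 := by
  have h1 : 0 ≤ k * (k + 1) := by
    rcases le_or_gt 0 k with h | h
    · positivity
    · have : k + 1 ≤ 0 := by omega
      nlinarith
  have h2 : 0 ≤ k * (k - 1) := by
    rcases le_or_gt k 0 with h | h
    · nlinarith
    · have : 0 ≤ k - 1 := by omega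
      positivity
  have h1' : (0 : ℝ) ≤ k * (k + 1) := by exact_mod_cast h1
  have h2' : (0 : ℝ) ≤ k * (k - 1) := by exact_mod_cast h2
  rcases hs with rfl | rfl <;> nlinarith

theorem s_EXT2 (hD : S_DST) : S_EXT2 := by
  intro r D i ν s hs
  have hr : (0 : ℝ) ≤ r := Nat.cast_nonneg r
  have hs2 : s ^ 2 = 1 := by rcases hs with rfl | rfl <;> norm_num
  constructor
  · intro a
    refine ⟨mk (fun b => D.w i b + ν b + if b = a then s / 2 else 0) (((r : ℝ) + 1) * i), ?_, ?_⟩
    · rintro c' ⟨j, μ, rfl⟩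
      refine sq_mono' ?_
      rw [dsq hD, dsq hD]
      simp only [((hD r).1 _ _).1, ((hD r).1 _ _).2]
      have h1 : ∑ b, (D.w i b + (ν b : ℝ) + (if b = a then s / 2 else 0) - (D.w i b + ν b)) ^ 2 =
          1 / 4 := by
        have : ∀ b, (D.w i b + (ν b : ℝ) + (if b = a then s / 2 else 0) - (D.w i b + ν b)) ^ 2 =
            if b = a then 1 / 4 else 0 := by
          intro b
          split_ifs
          · nlinarith
          · ring
        simp only [this, Finset.sum_ite_eq', Finset.mem_univ, if_true]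
      rw [h1, sub_self]
      by_cases hj : j = i
      · subst hj
        have h2 : ((ν a - μ a : ℤ) + s / 2 : ℝ) ^ 2 ≤
            ∑ b, (D.w j b + (ν b : ℝ) + (if b = a then s / 2 else 0) - (D.w j b + μ b)) ^ 2 := by
          refine le_trans (le_of_eq ?_) (Finset.single_le_sum (f := fun b =>
            (D.w j b + (ν b : ℝ) + (if b = a then s / 2 else 0) - (D.w j b + μ b)) ^ 2)
            (fun _ _ => sq_nonneg _) (Finset.mem_univ a))
          simp only [if_true]
          push_cast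
          ring
        have h3 := int_half (k := ν a - μ a) hs
        rw [sub_self]
        linarith
      · have h2 : 0 ≤ ∑ b, (D.w i b + (ν b : ℝ) + (if b = a then s / 2 else 0) -
            (D.w j b + μ b)) ^ 2 := Finset.sum_nonneg fun _ _ => sq_nonneg _
        have h3 : (1 : ℝ) ≤ ((i : ℝ) - j) ^ 2 := by
          have : 1 ≤ (i - j) ^ 2 := by
            have h4 : i - j ≠ 0 := fun h => hj (by omega)
            have := sq_pos_of_ne_zero h4  
            omega
          exact_mod_cast this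
        have h5 : (((r : ℝ) + 1) * i - (r + 1) * j) ^ 2 = (r + 1) ^ 2 * ((i : ℝ) - j) ^ 2 := by ring
        rw [h5]
        have h6 : (1 : ℝ) ≤ (r + 1) ^ 2 := by nlinarith
        nlinarith
    · rw [hor_cen hD, ((hD r).1 _ _).1]
      simp
  · refine ⟨mk (fun b => D.w i b + ν b) (((r : ℝ) + 1) * i + s * (((r : ℝ) + 1) / 2)), ?_, ?_⟩
    · rintro c' ⟨j, μ, rfl⟩
      refine sq_mono' ?_
      rw [dsq hD, dsq hD]
      simp only [((hD r).1 _ _).1, ((hD r).1 _ _).2]
      have h2 : 0 ≤ ∑ b, (D.w i b + (ν b : ℝ) - (D.w j b + μ b)) ^ 2 :=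
        Finset.sum_nonneg fun _ _ => sq_nonneg _
      have h3 := int_half (k := i - j) hs
      push_cast at h3
      have h5 : (((r : ℝ) + 1) * i + s * ((r + 1) / 2) - (r + 1) * j) ^ 2 =
        (r + 1) ^ 2 * (((i : ℝ) - j) + s / 2) ^ 2 := by ring
      have h6 : (((r : ℝ) + 1) * i + s * ((r + 1) / 2) - (r + 1) * i) ^ 2 = (r + 1) ^ 2 * (1 / 4) := by
        have : (((r : ℝ) + 1) * i + s * ((r + 1) / 2) - (r + 1) * i) ^ 2 =
          (r + 1) ^ 2 * (s ^ 2 / 4) := by ring
        rw [this, hs2]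
      rw [h5, h6]
      simp only [sub_self, ne_eq, OfNat.ofNat_ne_zero, not_false_eq_true, zero_pow,
        Finset.sum_const_zero, zero_add]
      have h7 := mul_le_mul_of_nonneg_left h3 (sq_nonneg ((r : ℝ) + 1))
      linarith
    · exact ((hD r).1 _ _).2

theorem s_MAP (hE : S_EXT) (hE2 : S_EXT2) : S_MAP := by
  intro r D i j ν μ g σ s b δ β hs hδ hg him
  have hr : (0 : ℝ) ≤ r := Nat.cast_nonneg r
  have hmem : ∀ z ∈ vor (pts D) (cen D i ν), (∀ a, |hor (g z) a - hor (cen D j μ) a| ≤ 1 / 2) ∧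
      |ver (g z) - ((r : ℝ) + 1) * j| ≤ ((r : ℝ) + 1) / 2 + 1 / 8 := by
    intro z hz
    have h1 : g z ∈ vor (pts D) (cen D j μ) := by
      rw [← him]
      exact ⟨z, hz, rfl⟩
    exact hE r D j μ (g z) fun t _ μ' => h1 _ ⟨j + t, μ', rfl⟩
  constructor
  · intro a
    obtain ⟨z1, hz1, e1⟩ := (hE2 r D i ν 1 (Or.inl rfl)).1 a
    obtain ⟨z2, hz2, e2⟩ := (hE2 r D i ν (-1) (Or.inr rfl)).1 a
    have h1 := abs_le.1 ((hmem z1 hz1).1 (σ a))
    have h2 := abs_le.1 ((hmem z2 hz2).1 (σ a))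
    rw [(hg z1).1 a, e1] at h1
    rw [(hg z2).1 a, e2] at h2
    rcases hs a with h | h <;> rw [h] at h1 h2 ⊢ <;> linarith [h1.1, h1.2, h2.1, h2.2]
  · obtain ⟨z1, hz1, e1⟩ := (hE2 r D i ν 1 (Or.inl rfl)).2
    obtain ⟨z2, hz2, e2⟩ := (hE2 r D i ν (-1) (Or.inr rfl)).2
    have h1 := abs_le.1 (hmem z1 hz1).2
    have h2 := abs_le.1 (hmem z2 hz2).2
    rw [(hg z1).2, e1] at h1
    rw [(hg z2).2, e2] at h2
    rw [abs_le]
    rcases hδ with h | h <;> rw [h] at h1 h2 ⊢ <;> constructor <;>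
      linarith [h1.1, h1.2, h2.1, h2.2]

theorem s_PER (hD : S_DST) : S_PER := by
  intro r D τ hv hh
  choose m hm using hh
  obtain ⟨h1, h2, h3, h4⟩ := hD r
  have hcen : ∀ i ν, τ + cen D i ν = cen D i (ν + m) := by
    intro i ν
    refine h2 _ _ (fun a => ?_) ?_
    · rw [(h4 _ _).1, hor_cen hD, hor_cen hD, hm a, Pi.add_apply]
      push_cast
      ring
    · rw [(h4 _ _).2, ver_cen hD, ver_cen hD, hv, zero_add]
  have hvor : ∀ i ν, (fun z => τ + z) '' vor (pts D) (cen D i ν) =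
      vor (pts D) (cen D i (ν + m)) := by
    intro i ν
    ext z
    constructor
    · rintro ⟨y, hy, rfl⟩
      rintro c' ⟨j, μ, rfl⟩
      have h5 : cen D j μ = τ + cen D j (μ - m) := by rw [hcen, sub_add_cancel]
      show dist (τ + y) _ ≤ dist (τ + y) _
      rw [h5, ← hcen, dist_add_left, dist_add_left]
      exact hy _ ⟨j, _, rfl⟩
    · intro hz
      refine ⟨z - τ, ?_, by simp⟩
      rintro c' ⟨j, μ, rfl⟩
      have h5 := hz _ ⟨j, μ + m, rfl⟩
      rw [← hcen, ← hcen] at h5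
      have h6 : ∀ c : E r, dist (z - τ) c = dist z (τ + c) := by
        intro c
        rw [← dist_add_left τ, add_sub_cancel]
      rw [h6, h6]
      exact h5
  ext A
  constructor
  · rintro ⟨B, ⟨c, ⟨i, ν, rfl⟩, rfl⟩, rfl⟩
    exact ⟨cen D i (ν + m), ⟨i, _, rfl⟩, hvor i ν⟩
  · rintro ⟨c, ⟨i, ν, rfl⟩, rfl⟩
    refine ⟨vor (pts D) (cen D i (ν - m)), ⟨_, ⟨i, _, rfl⟩, rfl⟩, ?_⟩
    have := hvor i (ν - m)
    rw [sub_add_cancel] at this
    exact this

end Pool.Agent.L7h76.CE
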